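import Pool.Agent.L7h70.UC.Res

/-!
# Project UC: contraction of the Lipschitz constants
-/

set_option autoImplicit false

namespace Pool.Agent.L7h70.UC

open Finset Pool.Agent.L7h38.UC

/-- where the ball at position `y` of urn `z` is after the ring -/
def loc {d n : ℕ} (σ : Equiv.Perm (Fin d)) (S : Fin d → Finset (Fin n)) (z : Fin d) (y : Fin n) :
    Fin d := if y ∈ S z then σ z else z

theorem nx_eq {d n : ℕ} (σ : Equiv.Perm (Fin d)) (c : Cf d n) (S : Fin d → Finset (Fin n))
    (x j : Fin d) :
    nx σ c S x j = ∑ z, ∑ y, (if c z y = j then (1 : ℤ) else 0) *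
      (if loc σ S z y = x then 1 else 0) := by
  have h1 : ∀ z : Fin d, ∀ y : Fin n, (if c z y = j then (1 : ℤ) else 0) *
      (if loc σ S z y = x then 1 else 0) =
      (if z = x then (if c x y = j then (1 : ℤ) else 0) -
        (if y ∈ S x ∧ c x y = j then 1 else 0) else 0) +
      (if z = σ⁻¹ x then (if y ∈ S (σ⁻¹ x) ∧ c (σ⁻¹ x) y = j then (1 : ℤ) else 0) else 0) := by
    intro z y
    unfold loc
    by_cases hy : y ∈ S z
    · rw [if_pos hy]
      by_cases hz : z = x
      · subst hz
        by_cases hs : z = σ⁻¹ z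
        · have hs' : σ z = z := by
            conv_lhs => rw [hs]
            simp
          rw [if_pos hs', if_pos rfl, if_pos hs, ← hs]
          simp [hy]
        · have hs' : ¬ σ z = z := fun h => hs (by rw [Equiv.Perm.eq_inv_iff_eq]; exact h)
          rw [if_neg hs', if_pos rfl, if_neg hs]
          simp [hy]
      · rw [if_neg hz]
        by_cases hs : z = σ⁻¹ x
        · have hs' : σ z = x := by rw [hs]; simp
          rw [if_pos hs', if_pos hs, ← hs]
          simp [hy]
        · have hs' : ¬ σ z = x := fun h => hs (by rw [Equiv.Perm.eq_inv_iff_eq]; exact h)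
          rw [if_neg hs', if_neg hs]
          simp
    · rw [if_neg hy]
      by_cases hz : z = x
      · subst hz
        rw [if_pos rfl, if_pos rfl]
        by_cases hs : z = σ⁻¹ z
        · rw [if_pos hs, ← hs]
          simp [hy]
        · rw [if_neg hs]
          simp [hy]
      · rw [if_neg hz, if_neg hz]
        by_cases hs : z = σ⁻¹ x
        · rw [if_pos hs, ← hs]
          simp [hy]
        · rw [if_neg hs]
          simp
  simp only [h1]
  simp only [Finset.sum_add_distrib]
  rw [Finset.sum_comm, Finset.sum_comm (s := univ) (t := univ) (f := fun z y =>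
    (if z = σ⁻¹ x then (if y ∈ S (σ⁻¹ x) ∧ c (σ⁻¹ x) y = j then (1 : ℤ) else 0) else 0))]
  simp only [Finset.sum_ite_eq', Finset.mem_univ, if_true, Finset.sum_sub_distrib,
    Finset.sum_boole]
  unfold nx cn mf
  have e2 : ∀ z : Fin d, (univ.filter fun y => y ∈ S z ∧ c z y = j) =
      (S z).filter fun y => c z y = j := by
    intro z
    ext y
    simp
  rw [e2, e2]

/-- exchange of the balls at `(i, p)` and `(i', p')` -/
def sw {d n : ℕ} (c : Cf d n) (i i' : Fin d) (p p' : Fin n) : Cf d n := fun z y =>
  if z = i ∧ y = p then c i' p' else if z = i' ∧ y = p' then c i p else c z y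

theorem nx_sw {d n : ℕ} (σ : Equiv.Perm (Fin d)) (c : Cf d n) (S : Fin d → Finset (Fin n))
    (i i' : Fin d) (hi : i ≠ i') (p p' : Fin n) :
    nx σ (sw c i i' p p') S = shift (nx σ c S) (c i p) (c i' p') (loc σ S i p) (loc σ S i' p') := by
  funext x j
  unfold shift
  rw [nx_eq, nx_eq]
  have h1 : ∀ z : Fin d, ∀ y : Fin n, (if sw c i i' p p' z y = j then (1 : ℤ) else 0) *
      (if loc σ S z y = x then 1 else 0) =
      (if c z y = j then (1 : ℤ) else 0) * (if loc σ S z y = x then 1 else 0) +
      (if z = i then (if y = p then ((if c i' p' = j then (1 : ℤ) else 0) -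
        (if c i p = j then (1 : ℤ) else 0)) * (if loc σ S i p = x then 1 else 0) else 0) else 0) +
      (if z = i' then (if y = p' then ((if c i p = j then (1 : ℤ) else 0) -
        (if c i' p' = j then (1 : ℤ) else 0)) * (if loc σ S i' p' = x then 1 else 0) else 0)
        else 0) := by
    intro z y
    unfold sw
    by_cases hz : z = i
    · subst hz
      rw [if_pos rfl, if_neg hi]
      by_cases hy : y = p
      · subst hy
        simp
        split_ifs <;> ring
      · simp [hy, hi]
    · rw [if_neg hz]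
      by_cases hz' : z = i'
      · subst hz'
        rw [if_pos rfl]
        by_cases hy : y = p'
        · subst hy
          simp [hz]
          split_ifs <;> ring
        · simp [hy, hz]
      · simp [hz, hz']
  simp only [h1]
  simp only [Finset.sum_add_distrib]
  have h2 : ∀ (u : Fin d) (v : Fin n) (w : ℤ), ∑ z : Fin d, ∑ y : Fin n,
      (if z = u then (if y = v then w else 0) else 0) = w := by
    intro u v w
    have : ∀ z : Fin d, ∑ y : Fin n, (if z = u then (if y = v then w else 0) else 0) =
        if z = u then w else 0 := by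
      intro z
      split_ifs <;> simp
    simp only [this]
    simp
  rw [h2, h2]
  simp only [eq_comm (a := j), eq_comm (a := x)]
  ring

theorem cn_eq_nx {d n : ℕ} (c : Cf d n) : cn c = nx 1 c (fun _ => ∅) := by
  funext x j
  simp [nx, mf]

theorem cn_sw {d n : ℕ} (c : Cf d n) (i i' : Fin d) (hi : i ≠ i') (p p' : Fin n) :
    cn (sw c i i' p p') = shift (cn c) (c i p) (c i' p') i i' := by
  rw [cn_eq_nx, nx_sw _ _ _ _ _ hi, ← cn_eq_nx]
  simp [loc]

/-- `PM` is `PL` -/
theorem PM_cn (hINV : S_INV) {d : ℕ} (n k : ℕ) (σ : Equiv.Perm (Fin d)) (F : Mt d → ℝ)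
    (c : Cf d n) : PM n k σ F (cn c) = PL k σ F c := by
  unfold PM
  have h : ∃ c' : Cf d n, cn c' = cn c := ⟨c, rfl⟩
  rw [dif_pos h]
  exact hINV d n k σ F _ _ h.choose_spec

theorem av_const {ι : Type} (s : Finset ι) (hs : (0 : ℝ) < #s) (x : ℝ) : av s (fun _ => x) = x := by
  unfold av
  rw [Finset.sum_const, nsmul_eq_mul, mul_div_cancel_left₀ _ hs.ne']

theorem av_add {ι : Type} (s : Finset ι) (g h : ι → ℝ) :
    av s (fun x => g x + h x) = av s g + av s h := by
  unfold av
  rw [Finset.sum_add_distrib, add_div]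

theorem av_sub {ι : Type} (s : Finset ι) (g h : ι → ℝ) :
    av s (fun x => g x - h x) = av s g - av s h := by
  unfold av
  rw [Finset.sum_sub_distrib, sub_div]

theorem av_mul {ι : Type} (s : Finset ι) (a : ℝ) (g : ι → ℝ) :
    av s (fun x => a * g x) = a * av s g := by
  unfold av
  rw [← Finset.mul_sum, mul_div_assoc]

theorem av_le {ι : Type} (s : Finset ι) (g h : ι → ℝ) (H : ∀ x ∈ s, g x ≤ h x) :
    av s g ≤ av s h := by
  unfold av
  exact div_le_div_of_nonneg_right (Finset.sum_le_sum H) (Nat.cast_nonneg _)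

theorem abs_av_le {ι : Type} (s : Finset ι) (g h : ι → ℝ) (H : ∀ x ∈ s, |g x| ≤ h x) :
    |av s g| ≤ av s h := by
  rw [abs_le]
  constructor
  · have := av_le s (fun x => (-1) * h x) g fun x hx => by
      have := (abs_le.1 (H x hx)).1
      linarith
    rw [av_mul] at this
    linarith
  · exact av_le s g h fun x hx => (abs_le.1 (H x hx)).2

theorem av_congr {ι : Type} (s : Finset ι) (g h : ι → ℝ) (H : ∀ x ∈ s, g x = h x) :
    av s g = av s h := by
  unfold av
  rw [Finset.sum_congr rfl H]

/-- average over one subset of a function of `p ∈ T` -/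
theorem av_bool (hHYP : S_HYP) {d n k : ℕ} (hn : 1 ≤ n) (hk : k ≤ n) (i : Fin d) (p : Fin n)
    (H : Bool → ℝ) :
    av (powersetCard k (univ : Finset (Fin n))) (fun T => H (decide (p ∈ T))) =
      k / n * H true + (1 - k / n) * H false := by
  have h := (hHYP d n k hn hk (fun _ => i) i).2.2 p
  have h1 : ∀ T : Finset (Fin n), H (decide (p ∈ T)) =
      H false + (H true - H false) * (if p ∈ T then 1 else 0) := by
    intro T
    by_cases hp : p ∈ T <;> simp [hp]
  simp only [h1]
  rw [av_add, av_mul, h, av_const _ (card_P_pos hk)]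
  ring

theorem av_two (hRES : S_RES) (hHYP : S_HYP) {d n k : ℕ} (hn : 1 ≤ n) (hk : k ≤ n)
    (i i' : Fin d) (hi : i ≠ i') (p p' : Fin n) (H : Bool → Bool → ℝ) :
    av (Ch d n k) (fun S => H (decide (p ∈ S i)) (decide (p' ∈ S i'))) =
      (1 - k / n) ^ 2 * H false false + k / n * (1 - k / n) * H true false +
        (1 - k / n) * (k / n) * H false true + (k / n) ^ 2 * H true true := by
  rw [hRES d n k hk i]
  have h1 : ∀ S : Fin d → Finset (Fin n),
      av (powersetCard k univ) (fun T => H (decide (p ∈ (Function.update S i T) i))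
        (decide (p' ∈ (Function.update S i T) i'))) =
      (fun b : Bool => k / n * H true b + (1 - k / n) * H false b) (decide (p' ∈ S i')) := by
    intro S
    refine Eq.trans ?_ (av_bool hHYP hn hk i p (fun b => H b (decide (p' ∈ S i'))))
    refine av_congr _ _ _ fun T _ => ?_
    rw [Function.update_self, Function.update_of_ne hi.symm]
  simp only [h1]
  rw [hRES d n k hk i']
  have h2 : ∀ S : Fin d → Finset (Fin n),
      av (powersetCard k univ) (fun T => (fun b : Bool => k / n * H true b +
        (1 - k / n) * H false b) (decide (p' ∈ (Function.update S i' T) i'))) =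
      k / n * (k / n * H true true + (1 - k / n) * H false true) +
        (1 - k / n) * (k / n * H true false + (1 - k / n) * H false false) := by
    intro S
    refine Eq.trans ?_ (av_bool hHYP hn hk i p' (fun b : Bool => k / n * H true b +
        (1 - k / n) * H false b))
    refine av_congr _ _ _ fun T _ => ?_
    rw [Function.update_self]
  simp only [h2]
  rw [av_const _ (card_Ch_pos hk)]
  ring

theorem shift_diag {d : ℕ} (A : Mt d) (a b i : Fin d) : shift A a b i i = A := by
  funext x j
  simp [shift]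

theorem shift_same {d : ℕ} (A : Mt d) (a i i' : Fin d) : shift A a a i i' = A := by
  funext x j
  simp [shift]

theorem q_nonneg {d : ℕ} {l : ℝ} (h0 : 0 ≤ l) (h1 : l ≤ 1) (σ : Equiv.Perm (Fin d))
    (ℓ : Fin d → Fin d → ℝ) (h : ∀ i i', 0 ≤ ℓ i i') (i i' : Fin d) : 0 ≤ q l σ ℓ i i' := by
  unfold q
  split_ifs
  · exact le_refl _
  · have := h i i'
    have := h (σ i) i'
    have := h i (σ i')
    have := h (σ i) (σ i')
    have : 0 ≤ 1 - l := by linarith
    positivity

/-- the bound for the locations -/
noncomputable def HH {d : ℕ} (σ : Equiv.Perm (Fin d)) (ℓ : Fin d → Fin d → ℝ) (i i' : Fin d) :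
    Bool → Bool → ℝ := fun x y =>
  if (if x = true then σ i else i) = (if y = true then σ i' else i') then 0 else
    ℓ (if x = true then σ i else i) (if y = true then σ i' else i')

theorem s_CON (hRES : S_RES) (hHYP : S_HYP) (hINV : S_INV) (hNXC : S_NXC) (hSWP : S_SWP) :
    S_CON := by
  intro d n k hn hk σ F ℓ hℓ hF c c' i i' a b hc hc' hsh
  have hn0 : (0 : ℝ) < n := by exact_mod_cast hn
  have hl0 : (0 : ℝ) ≤ k / n := by positivity
  have hl1 : (k : ℝ) / n ≤ 1 := by
    rw [div_le_one hn0]
    exact_mod_cast hk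
  by_cases hi : i = i'
  · subst hi
    rw [shift_diag] at hsh
    rw [hsh, sub_self, abs_zero]
    exact q_nonneg hl0 hl1 σ ℓ hℓ i i
  by_cases hab : a = b
  · subst hab
    rw [shift_same] at hsh
    rw [hsh, sub_self, abs_zero]
    exact q_nonneg hl0 hl1 σ ℓ hℓ i i'
  obtain ⟨p, p', hp, hp', hPL⟩ := hSWP d n c c' i i' a b hi hab hsh
  rw [PM_cn hINV, PM_cn hINV, hPL k σ F]
  unfold PL
  rw [← av_sub]
  have hbal : Bal (sw c i i' p p') := by
    intro j
    rw [cn_sw c i i' hi p p', hp, hp', ← hsh]
    exact hc' j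
  refine (abs_av_le _ _ (fun S => HH σ ℓ i i' (decide (p ∈ S i)) (decide (p' ∈ S i'))) ?_).trans ?_
  · intro S hS
    obtain ⟨c1, hc1, hb1⟩ := hNXC d n k σ c S hS
    obtain ⟨c2, hc2, hb2⟩ := hNXC d n k σ (sw c i i' p p') S hS
    have hc2' : cn c2 = shift (cn c1) a b (if p ∈ S i then σ i else i)
        (if p' ∈ S i' then σ i' else i') := by
      rw [hc2, nx_sw σ c S i i' hi p p', hc1, hp, hp']
      rfl
    have h := hF c1 c2 _ _ a b (hb1 hc) (hb2 hbal) hc2'
    unfold HH
    simp only [decide_eq_true_eq]
    by_cases h1 : (if p ∈ S i then σ i else i) = (if p' ∈ S i' then σ i' else i')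
    · rw [if_pos h1, h1, shift_diag, sub_self, abs_zero]
    · rw [if_neg h1, ← hc1, ← hc2']
      exact h
  · rw [av_two hRES hHYP hn hk i i' hi p p' (HH σ ℓ i i')]
    unfold HH
    simp only [if_true, Bool.false_eq_true, if_false]
    unfold q
    rw [if_neg hi]
    have e : σ i ≠ σ i' := fun h => hi (σ.injective h)
    rw [if_neg hi, if_neg e]
    have g : ∀ x y : Fin d, (if x = y then 0 else ℓ x y) ≤ ℓ x y := by
      intro x y
      split_ifs
      · exact hℓ _ _
      · exact le_refl _
    have h10 : (0 : ℝ) ≤ 1 - k / n := by linarith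
    have t1 := mul_le_mul_of_nonneg_left (g (σ i) i') (mul_nonneg hl0 h10)
    have t2 := mul_le_mul_of_nonneg_left (g i (σ i')) (mul_nonneg h10 hl0)
    linarith

end Pool.Agent.L7h70.UC
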