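import Pool.Agent.L7h70.UC.Res

/-!
# Project UC: mean and variance of the hypergeometric distribution
-/

set_option autoImplicit false

namespace Pool.Agent.L7h70.UC

open Finset Pool.Agent.L7h38.UC

theorem sum_map {n k : ℕ} (e : Equiv.Perm (Fin n)) (g : Finset (Fin n) → ℝ) :
    ∑ T ∈ powersetCard k univ, g (T.map e.toEmbedding) = ∑ T ∈ powersetCard k univ, g T := by
  refine Finset.sum_nbij' (fun T => T.map e.toEmbedding) (fun T => T.map e.symm.toEmbedding)
    ?_ ?_ ?_ ?_ ?_
  · intro T hT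
    rw [mem_powersetCard] at hT ⊢
    exact ⟨subset_univ _, by rw [card_map]; exact hT.2⟩
  · intro T hT
    rw [mem_powersetCard] at hT ⊢
    exact ⟨subset_univ _, by rw [card_map]; exact hT.2⟩
  · intro T _
    ext x
    simp
  · intro T _
    ext x
    simp
  · intro T _
    rfl

/-- number of sets containing `p` -/
noncomputable def N1 (n k : ℕ) (p : Fin n) : ℝ :=
  ∑ T ∈ powersetCard k (univ : Finset (Fin n)), if p ∈ T then (1 : ℝ) else 0

/-- number of sets containing `p` and `q` -/
noncomputable def N2 (n k : ℕ) (p q : Fin n) : ℝ :=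
  ∑ T ∈ powersetCard k (univ : Finset (Fin n)),
    (if p ∈ T then (1 : ℝ) else 0) * (if q ∈ T then (1 : ℝ) else 0)

theorem N1_eq {n k : ℕ} (p q : Fin n) : N1 n k p = N1 n k q := by
  unfold N1
  rw [← sum_map (Equiv.swap p q)]
  refine Finset.sum_congr rfl fun T _ => ?_
  congr 1
  rw [Finset.mem_map_equiv]
  simp

theorem N2_eq {n k : ℕ} (p q r : Fin n) (hq : q ≠ p) (hr : r ≠ p) : N2 n k p q = N2 n k p r := by
  unfold N2
  rw [← sum_map (Equiv.swap q r)]
  refine Finset.sum_congr rfl fun T _ => ?_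
  simp only [Finset.mem_map_equiv]
  simp [Equiv.swap_apply_of_ne_of_ne hq.symm hr.symm]

theorem sum_N1 {n k : ℕ} (p : Fin n) :
    (n : ℝ) * N1 n k p = k * #(powersetCard k (univ : Finset (Fin n))) := by
  have h : ∑ q : Fin n, N1 n k q = k * #(powersetCard k (univ : Finset (Fin n))) := by
    unfold N1
    rw [Finset.sum_comm]
    have : ∀ T ∈ powersetCard k (univ : Finset (Fin n)),
        ∑ q : Fin n, (if q ∈ T then (1 : ℝ) else 0) = k := by
      intro T hT
      rw [Finset.sum_boole]
      simp [(mem_powersetCard.1 hT).2]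
    rw [Finset.sum_congr rfl this, Finset.sum_const, nsmul_eq_mul, mul_comm]
  rw [← h, Finset.sum_congr rfl (fun q _ => N1_eq q p)]
  simp

theorem sum_N2 {n k : ℕ} (p q : Fin n) (hq : q ≠ p) :
    ((n : ℝ) - 1) * N2 n k p q = (k - 1) * N1 n k p := by
  have h : ∑ r ∈ univ.erase p, N2 n k p r = (k - 1) * N1 n k p := by
    unfold N2 N1
    rw [Finset.sum_comm, Finset.mul_sum]
    refine Finset.sum_congr rfl fun T hT => ?_
    rw [← Finset.mul_sum]
    by_cases hp : p ∈ T
    · have h2 : ∑ r ∈ univ.erase p, (if r ∈ T then (1 : ℝ) else 0) =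
          (∑ r, (if r ∈ T then (1 : ℝ) else 0)) - (if p ∈ T then (1 : ℝ) else 0) := by
        rw [← Finset.sum_erase_add univ _ (mem_univ p)]
        ring
      rw [h2, Finset.sum_boole]
      simp [(mem_powersetCard.1 hT).2, hp]
    · simp [hp]
  rw [← h, Finset.sum_congr rfl (fun r hr => N2_eq p r q (ne_of_mem_erase hr) hq)]
  rw [Finset.sum_const, card_erase_of_mem (mem_univ p), card_univ, Fintype.card_fin, nsmul_eq_mul]
  have : 1 ≤ n := by
    have := p.2
    omega
  push_cast [this]
  ring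

theorem N1_val {n k : ℕ} (p : Fin n) :
    N1 n k p = k / n * #(powersetCard k (univ : Finset (Fin n))) := by
  have h := sum_N1 (k := k) p
  have hn : (0 : ℝ) < n := by
    have := p.2
    exact_mod_cast (by omega : 0 < n)
  field_simp
  linarith

theorem N2_le {n k : ℕ} (hk : k ≤ n) (p q : Fin n) (hq : q ≠ p) :
    N2 n k p q ≤ ((k : ℝ) / n) ^ 2 * #(powersetCard k (univ : Finset (Fin n))) := by
  have h := sum_N2 (k := k) p q hq
  rw [N1_val] at h
  have hn : (2 : ℝ) ≤ n := by
    have h1 := p.2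
    have h2 := q.2
    have h3 : (q : ℕ) ≠ p := fun h => hq (Fin.ext h)
    exact_mod_cast (by omega : 2 ≤ n)
  have hkn : (k : ℝ) ≤ n := by exact_mod_cast hk
  have hk0 : (0 : ℝ) ≤ k := Nat.cast_nonneg _
  set P : ℝ := (#(powersetCard k (univ : Finset (Fin n))) : ℝ) with hPdef
  have hP : 0 ≤ P := Nat.cast_nonneg _
  have h1 : N2 n k p q = (k - 1) * k * P / ((n - 1) * n) := by
    have h3 : ((n : ℝ) - 1) ≠ 0 := by linarith
    have h4 : (n : ℝ) ≠ 0 := by linarith
    field_simp
    field_simp at h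
    linarith
  rw [h1, div_pow, div_mul_eq_mul_div, div_le_div_iff₀ (by nlinarith) (by nlinarith)]
  have h5 : ((k : ℝ) - 1) * n ≤ k * (n - 1) := by nlinarith
  have h6 : 0 ≤ (k : ℝ) * P * n := by positivity
  nlinarith [mul_le_mul_of_nonneg_right h5 h6]

theorem s_HYP : S_HYP := by
  intro d n k hn hk f j
  have hP := card_P_pos hk
  have hn0 : (0 : ℝ) < n := by exact_mod_cast hn
  have hkn : (k : ℝ) ≤ n := by exact_mod_cast hk
  have hk0 : (0 : ℝ) ≤ k := Nat.cast_nonneg _
  have hmf : ∀ T : Finset (Fin n), (mf f T j : ℝ) =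
      ∑ p ∈ univ.filter (fun p => f p = j), if p ∈ T then (1 : ℝ) else 0 := by
    intro T
    unfold mf
    rw [Finset.sum_boole]
    push_cast
    congr 2
    ext p
    simp [and_comm]
  set A : Finset (Fin n) := univ.filter (fun p => f p = j) with hA
  set P : ℝ := (#(powersetCard k (univ : Finset (Fin n))) : ℝ) with hPdef
  have h1 : ∑ T ∈ powersetCard k univ, (mf f T j : ℝ) = k / n * #A * P := by
    simp only [hmf]
    rw [Finset.sum_comm]
    have : ∀ p ∈ A, ∑ T ∈ powersetCard k (univ : Finset (Fin n)),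
        (if p ∈ T then (1 : ℝ) else 0) = k / n * P := fun p _ => N1_val p
    rw [Finset.sum_congr rfl this, Finset.sum_const, nsmul_eq_mul]
    ring
  have h2 : ∑ T ∈ powersetCard k univ, (mf f T j : ℝ) ^ 2 ≤
      (k / n * #A + (k / n) ^ 2 * (#A : ℝ) ^ 2) * P := by
    have e1 : ∀ T : Finset (Fin n), (mf f T j : ℝ) ^ 2 =
        ∑ p ∈ A, ∑ q ∈ A, (if p ∈ T then (1 : ℝ) else 0) * (if q ∈ T then (1 : ℝ) else 0) := by
      intro T
      rw [hmf, sq, Finset.sum_mul_sum]
    simp only [e1]
    rw [Finset.sum_comm]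
    have e2 : ∀ p ∈ A, ∑ T ∈ powersetCard k (univ : Finset (Fin n)),
        ∑ q ∈ A, (if p ∈ T then (1 : ℝ) else 0) * (if q ∈ T then (1 : ℝ) else 0) ≤
          k / n * P + #A * ((k / n) ^ 2 * P) := by
      intro p hp
      rw [Finset.sum_comm]
      rw [← Finset.add_sum_erase _ _ hp]
      refine add_le_add ?_ ?_
      · rw [← N1_val p]
        unfold N1
        refine le_of_eq (Finset.sum_congr rfl fun T _ => ?_)
        split_ifs <;> simp
      · calc ∑ q ∈ A.erase p, ∑ T ∈ powersetCard k (univ : Finset (Fin n)),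
              (if p ∈ T then (1 : ℝ) else 0) * (if q ∈ T then (1 : ℝ) else 0)
            ≤ ∑ q ∈ A.erase p, ((k / n) ^ 2 * P) :=
              Finset.sum_le_sum fun q hq => N2_le hk p q (ne_of_mem_erase hq)
          _ = #(A.erase p) * ((k / n) ^ 2 * P) := by
              rw [Finset.sum_const, nsmul_eq_mul]
          _ ≤ #A * ((k / n) ^ 2 * P) := by
              refine mul_le_mul_of_nonneg_right ?_ (by positivity)
              exact_mod_cast card_le_card (erase_subset p A)
    refine (Finset.sum_le_sum e2).trans (le_of_eq ?_)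
    rw [Finset.sum_const, nsmul_eq_mul]
    ring
  refine ⟨?_, ?_, ?_⟩
  · unfold av
    rw [h1, ← hPdef]
    exact mul_div_cancel_right₀ _ hP.ne'
  · unfold av
    rw [div_le_iff₀ hP]
    have e3 : ∑ T ∈ powersetCard k univ, ((mf f T j : ℝ) - k / n * (#A : ℕ)) ^ 2 =
        ∑ T ∈ powersetCard k univ, (mf f T j : ℝ) ^ 2 -
          2 * (k / n * #A) * ∑ T ∈ powersetCard k univ, (mf f T j : ℝ) +
          (k / n * #A) ^ 2 * P := by
      rw [Finset.mul_sum, ← Finset.sum_sub_distrib, hPdef]
      have : ((k : ℝ) / n * #A) ^ 2 * (#(powersetCard k (univ : Finset (Fin n))) : ℝ) =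
          ∑ T ∈ powersetCard k (univ : Finset (Fin n)), ((k : ℝ) / n * #A) ^ 2 := by
        rw [Finset.sum_const, nsmul_eq_mul]
        ring
      rw [this, ← Finset.sum_add_distrib]
      refine Finset.sum_congr rfl fun T _ => ?_
      ring
    rw [e3, h1]
    have hA1 : (#A : ℝ) ≤ n := by
      have := card_le_univ A
      rw [Fintype.card_fin] at this
      exact_mod_cast this
    have hA0 : (0 : ℝ) ≤ #A := Nat.cast_nonneg _
    have hl : (k : ℝ) / n ≤ 1 := by rw [div_le_one hn0]; exact hkn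
    have h7 : (k : ℝ) / n * #A ≤ n := by
      calc (k : ℝ) / n * #A ≤ 1 * #A := mul_le_mul_of_nonneg_right hl hA0
        _ ≤ n := by linarith
    have h8 := mul_le_mul_of_nonneg_right h7 hP.le
    nlinarith [h2, h8]
  · intro p
    unfold av
    have := N1_val (k := k) p
    unfold N1 at this
    rw [this, ← hPdef]
    exact mul_div_cancel_right₀ _ hP.ne'

end Pool.Agent.L7h70.UC
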