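import Pool.Agent.L7h38.UC.Stm

/-!
# Project UC: resampling one urn
-/

set_option autoImplicit false

namespace Pool.Agent.L7h70.UC

open Finset Pool.Agent.L7h38.UC

theorem card_P_pos {n k : ℕ} (hk : k ≤ n) :
    (0 : ℝ) < #(powersetCard k (univ : Finset (Fin n))) := by
  rw [card_powersetCard, card_univ, Fintype.card_fin]
  exact_mod_cast Nat.choose_pos hk

theorem mem_Ch {d n k : ℕ} {S : Fin d → Finset (Fin n)} :
    S ∈ Ch d n k ↔ ∀ i, S i ∈ powersetCard k univ := by
  unfold Ch
  exact Fintype.mem_piFinset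

theorem card_Ch_pos {d n k : ℕ} (hk : k ≤ n) : (0 : ℝ) < #(Ch d n k) := by
  unfold Ch
  rw [Fintype.card_piFinset]
  have : 0 < ∏ _i : Fin d, #(powersetCard k (univ : Finset (Fin n))) := by
    refine Finset.prod_pos fun i _ => ?_
    exact_mod_cast card_P_pos (n := n) (k := k) hk
  exact_mod_cast this

theorem s_RES : S_RES := by
  intro d n k hk i g
  unfold av
  have hP := card_P_pos hk
  have key : ∑ S ∈ Ch d n k, ∑ T ∈ powersetCard k univ, g (Function.update S i T) =
      ∑ S ∈ Ch d n k, ∑ T ∈ powersetCard k (univ : Finset (Fin n)), g S := by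
    rw [← Finset.sum_product', ← Finset.sum_product']
    refine Finset.sum_nbij' (fun x => (Function.update x.1 i x.2, x.1 i))
      (fun x => (Function.update x.1 i x.2, x.1 i)) ?_ ?_ ?_ ?_ ?_
    · rintro ⟨S, T⟩ h
      rw [mem_product] at h ⊢
      obtain ⟨hS, hT⟩ := h
      refine ⟨?_, mem_Ch.1 hS i⟩
      refine mem_Ch.2 fun x => ?_
      by_cases hx : x = i
      · subst hx
        simpa using hT
      · simpa [Function.update_of_ne hx] using mem_Ch.1 hS x
    · rintro ⟨S, T⟩ h
      rw [mem_product] at h ⊢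
      obtain ⟨hS, hT⟩ := h
      refine ⟨?_, mem_Ch.1 hS i⟩
      refine mem_Ch.2 fun x => ?_
      by_cases hx : x = i
      · subst hx
        simpa using hT
      · simpa [Function.update_of_ne hx] using mem_Ch.1 hS x
    · rintro ⟨S, T⟩ _
      simp
    · rintro ⟨S, T⟩ _
      simp
    · rintro ⟨S, T⟩ _
      simp
  rw [← Finset.sum_div, key]
  simp only [Finset.sum_const, nsmul_eq_mul]
  have hC := card_Ch_pos (d := d) hk
  rw [← Finset.mul_sum]
  field_simp

end Pool.Agent.L7h70.UC
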